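import Pool.Agent.MP_22fc46_co.Fo.St

/- The steps from rooted trees to cycle double covers. -/

set_option autoImplicit false

namespace Pool.Agent.MP_22fc46_co.Fo

section

section
variable {V : Type} {T : SimpleGraph V} {p v a y z : V}

def Br (T : SimpleGraph V) (p v : V) : Set V := {y | (T.deleteEdges {s(p, v)}).Reachable v y}

theorem Br.self : v ∈ Br T p v := SimpleGraph.Reachable.refl _

theorem Br.step (hy : y ∈ Br T p v) (h : T.Adj y z) (e : s(y, z) ≠ s(p, v)) : z ∈ Br T p v :=
  hy.trans (SimpleGraph.Adj.reachable (by simpa using ⟨h, by simpa using e⟩))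

theorem Br.ind {P : V → Prop} (h0 : P v) (h : ∀ y z, T.Adj y z → s(y, z) ≠ s(p, v) → P y → P z) :
    ∀ y ∈ Br T p v, P y := by
  intro y hy
  have r := (SimpleGraph.reachable_iff_reflTransGen _ _).1 hy
  clear hy
  induction r with
  | refl => exact h0
  | tail _ e ih =>
    rw [SimpleGraph.deleteEdges_adj] at e
    exact h _ _ e.1 e.2 ih

theorem Br.disj (hT : T.IsAcyclic) (h : T.Adj p v) (h1 : y ∈ Br T p v) (h2 : y ∈ Br T v p) :
    False := by
  have b := SimpleGraph.isAcyclic_iff_forall_adj_isBridge.1 hT h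
  rw [SimpleGraph.isBridge_iff] at b
  refine b (SimpleGraph.Reachable.trans ?_ h1.symm)
  rw [Sym2.eq_swap]
  exact h2

theorem Br.sub (hT : T.IsAcyclic) (h : T.Adj v a) (e : a ≠ p) : Br T v a ⊆ Br T p v := by
  have n : ∀ y ∈ Br T v a, y ≠ v := fun y hy c => Br.disj hT h hy (c ▸ Br.self)
  refine fun y hy => (Br.ind (P := fun y => y ∈ Br T v a ∧ y ∈ Br T p v)
    ⟨Br.self, Br.step Br.self h ?_⟩
    (fun y z c d i => ⟨Br.step i.1 c d, Br.step i.2 c ?_⟩) y hy).2
  · have := h.ne
    simp only [ne_eq, Sym2.eq_iff]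
    tauto
  · have h1 := n y i.1
    have h2 := n z (Br.step i.1 c d)
    simp only [ne_eq, Sym2.eq_iff]
    tauto

theorem ex_Br [Finite V] {n : ℕ} (lab : V → Fin n) (hT : T.IsAcyclic)
    (hd : ∀ v, (T.neighborSet v).ncard = 1 ∨ (T.neighborSet v).ncard = 3) (N : ℕ) :
    ∀ p v, T.Adj v p → (Br T p v).ncard < N → ∃ t, Sub T lab p v (Br T p v) t := by
  induction N with
  | zero => omega
  | succ N ih =>
    intro p v h hN
    rcases hd v with c | c
    · obtain ⟨x, hx⟩ := Set.ncard_eq_one.1 c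
      have e : ∀ w, T.Adj v w ↔ w = x := fun w => by simpa using Set.ext_iff.1 hx w
      obtain rfl := (e p).1 h
      have : Br T p v = {v} := Set.Subset.antisymm (Br.ind (P := (· ∈ ({v} : Set V))) rfl
        fun y z j d i => (d (by
          have i : y = v := i
          rw [i] at j ⊢
          rw [(e z).1 j, Sym2.eq_swap])).elim) (by simpa using Br.self)
      exact ⟨_, this ▸ Sub.leaf p v e⟩
    · have c2 : (T.neighborSet v \ {p}).ncard = 2 := by
        rw [Set.ncard_sdiff_singleton_of_mem (show p ∈ T.neighborSet v from h), c]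
      obtain ⟨a, b, ab, hx⟩ := Set.ncard_eq_two.1 c2
      have e : ∀ w, (T.Adj v w ∧ w ≠ p) ↔ w = a ∨ w = b := fun w => by
        simpa using Set.ext_iff.1 hx w
      have ha := (e a).2 (Or.inl rfl)
      have hb := (e b).2 (Or.inr rfl)
      have nv : ∀ a, T.Adj v a → v ∉ Br T v a := fun a h c => Br.disj hT h c Br.self
      have lt : ∀ a, T.Adj v a ∧ a ≠ p → (Br T v a).ncard < N := fun a h => by
        have := Set.ncard_lt_ncard ((Set.ssubset_iff_of_subset (Br.sub hT h.1 h.2)).2
          ⟨v, Br.self, nv a h.1⟩) (Set.toFinite _)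
        omega
      have np : ∀ a, T.Adj v a ∧ a ≠ p → p ∉ Br T v a := fun a g c =>
        Br.disj hT h.symm (Br.sub hT g.1 g.2 c) Br.self
      obtain ⟨s, hs⟩ := ih v a ha.1.symm (lt a ha)
      obtain ⟨t, ht⟩ := ih v b hb.1.symm (lt b hb)
      have st : ∀ a y z, T.Adj v a → y ∈ Br T v a → T.Adj y z → z = v ∨ z ∈ Br T v a :=
        fun a y z g hy c => by
          by_cases d : s(y, z) = s(v, a)
          · rcases Sym2.eq_iff.1 d with d | d
            exacts [(nv a g (d.1 ▸ hy)).elim, Or.inl d.2]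
          · exact Or.inr (Br.step hy c d)
      have : Br T p v = insert v (Br T v a ∪ Br T v b) := by
        refine Set.Subset.antisymm (Br.ind (P := (· ∈ insert v (Br T v a ∪ Br T v b))) (Or.inl rfl)
          fun y z j d i => ?_) (Set.insert_subset Br.self
            (Set.union_subset (Br.sub hT ha.1 ha.2) (Br.sub hT hb.1 hb.2)))
        rcases i with i | i | i
        · rw [i] at j d
          rcases (e z).1 ⟨j, fun k => d (by rw [k, Sym2.eq_swap])⟩ with k | k <;> rw [k]
          exacts [Or.inr (Or.inl Br.self), Or.inr (Or.inr Br.self)]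
        · exact (st a y z ha.1 i j).imp_right Or.inl
        · exact (st b y z hb.1 i j).imp_right Or.inr
      refine ⟨_, this ▸ Sub.node p v a b _ _ s t (fun w => ?_) ha.2.symm hb.2.symm ab hs ht
        (Set.disjoint_left.2 fun y h1 h2 => Br.disj hT ha.1 h1 (Br.sub hT hb.1 ab.symm h2))
        (nv a ha.1) (nv b hb.1) (np a ha) (np b hb)⟩
      rw [← e w]
      by_cases k : w = p <;> simp [k, h]

end

theorem sEx : SEx := by
  intro V _ n T lab hT hd
  classical
  have := Fintype.ofFinite V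
  refine ⟨?_, fun p v hp h => ?_⟩
  · obtain ⟨x⟩ := hT.connected.nonempty
    obtain ⟨y, hy⟩ : (T.neighborSet x).Nonempty := by
      rw [← Set.ncard_pos (Set.toFinite _)]
      rcases hd x with c | c <;> omega
    have : Nontrivial V := ⟨x, y, SimpleGraph.Adj.ne hy⟩
    obtain ⟨w, hw⟩ := hT.exists_vert_degree_one_of_nontrivial
    exact ⟨w, by rw [Lf, Set.ncard_eq_toFinset_card', ← hw]; rfl⟩
  · obtain ⟨t, ht⟩ := ex_Br lab hT.isAcyclic hd _ p v h.symm (Nat.lt_succ_self _)
    obtain ⟨x, hx⟩ := Set.ncard_eq_one.1 hp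
    have e : ∀ w, T.Adj p w ↔ w = x := fun w => by simpa using Set.ext_iff.1 hx w
    obtain rfl := (e v).1 h
    refine ⟨t, ?_⟩
    convert ht
    refine Set.Subset.antisymm (fun y hy => ?_) fun y hy c => ht.closed.1 (c ▸ hy)
    have r := (SimpleGraph.reachable_iff_reflTransGen _ _).1 (hT.connected.preconnected p y)
    have : y = p ∨ y ∈ Br T p v := by
      clear hy
      induction r with
      | refl => exact Or.inl rfl
      | tail _ c ih =>
        rcases ih with rfl | ih
        · exact Or.inr ((e _).1 c ▸ Br.self)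
        · exact (ht.closed.2 _ ih _ c).symm.imp_left And.right
    exact this.resolve_left hy

end

section

open Finset

theorem sum_Flow {V : Type} [Fintype V] (P : V → Prop) {_ : DecidablePred P} (S : Finset V)
    (f : V → K4) (h : ∀ z, P z ↔ z ∈ S) : ∑ z with P z, f z = ∑ z ∈ S, f z :=
  Finset.sum_congr (by ext z; simp [h]) fun _ _ => rfl

theorem sFlow : SFlow := by
  classical
  intro V _ n T lab p v B t h
  induction h with
  | leaf p v h =>
    intro x hx
    have hL : Lf T v := by
      unfold Lf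
      rw [show T.neighborSet v = {p} from Set.ext fun w => h w, Set.ncard_singleton]
    refine ⟨fun _ => x (lab v), (Finset.sum_eq_single (lab v) (fun w _ hw => hx.2 w hw)
      (by simp)).symm, fun _ _ _ _ => hx.1, fun y hy hn => ?_, fun u => ?_⟩
    · obtain rfl : y = v := hy
      exact absurd hL hn
    · by_cases hu : lab v = u
      · rw [sum_Flow _ {v} _ (fun y => ⟨fun c => mem_singleton.2 c.1, fun c => by
          obtain rfl := mem_singleton.1 c
          exact ⟨rfl, hL, hu⟩⟩), sum_singleton,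
          sum_Flow _ {p} _ (fun z => by rw [h, mem_singleton]), sum_singleton, hu]
      · rw [sum_Flow _ ∅ _ (fun y => ⟨fun c => by
          obtain rfl : y = v := c.1
          exact absurd c.2.2 hu, fun c => absurd c (notMem_empty _)⟩), sum_empty]
        exact hx.2 u (Ne.symm hu)
  | node p v a b A B s t h pa pb ab sa sb dj vA vB pA pB iha ihb =>
    rintro x ⟨x1, x2, r1, r2, ne, rfl⟩
    obtain ⟨gA, a1, a2, a3, a4⟩ := iha x1 r1
    obtain ⟨gB, b1, b2, b3, b4⟩ := ihb x2 r2
    have vp : v ≠ p := fun c => T.irrefl ((h v).2 (Or.inl c))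
    let g : Sym2 V → K4 := fun e =>
      if e = s(p, v) then ∑ i, (x1 + x2) i else if ∃ w ∈ A, w ∈ e then gA e else gB e
    have g0 : g s(p, v) = ∑ i, (x1 + x2) i := if_pos rfl
    have ga : ∀ y ∈ A, ∀ z, g s(y, z) = gA s(y, z) := fun y hy z => by
      have c : s(y, z) ≠ s(p, v) := fun c => by
        rcases Sym2.eq_iff.1 c with c | c
        exacts [pA (c.1 ▸ hy), vA (c.1 ▸ hy)]
      exact (if_neg c).trans (if_pos ⟨y, hy, Sym2.mem_mk_left _ _⟩)
    have gb : ∀ y ∈ B, ∀ z, T.Adj y z → g s(y, z) = gB s(y, z) := fun y hy z hz => by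
      have c : s(y, z) ≠ s(p, v) := fun c => by
        rcases Sym2.eq_iff.1 c with c | c
        exacts [pB (c.1 ▸ hy), vB (c.1 ▸ hy)]
      refine (if_neg c).trans (if_neg ?_)
      rintro ⟨w, hw, hw'⟩
      rcases Sym2.mem_iff.1 hw' with rfl | rfl
      · exact Set.disjoint_left.1 dj hw hy
      · rcases sb.closed.2 y hy w hz with d | d
        · exact Set.disjoint_left.1 dj hw d
        · exact vA (d.2 ▸ hw)
    have e0 : g s(v, p) = ∑ i, x1 i + ∑ i, x2 i := by
      rw [Sym2.eq_swap, g0]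
      simp only [Pi.add_apply, Finset.sum_add_distrib]
    have e1 : g s(v, a) = ∑ i, x1 i := by
      rw [Sym2.eq_swap, ga a sa.mem, Sym2.eq_swap, a1]
    have e2 : g s(v, b) = ∑ i, x2 i := by
      rw [Sym2.eq_swap, gb b sb.mem v sb.adj, Sym2.eq_swap, b1]
    have sA : ∀ y ∈ A, ∑ z with T.Adj y z, g s(y, z) = ∑ z with T.Adj y z, gA s(y, z) :=
      fun y hy => Finset.sum_congr rfl fun z _ => ga y hy z
    have sB : ∀ y ∈ B, ∑ z with T.Adj y z, g s(y, z) = ∑ z with T.Adj y z, gB s(y, z) :=
      fun y hy => Finset.sum_congr rfl fun z hz => gb y hy z (mem_filter.1 hz).2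
    have nL : ¬ Lf T v := by
      unfold Lf
      rw [show T.neighborSet v = {p, a, b} from Set.ext fun w => h w,
        Set.ncard_eq_three.2 ⟨p, a, b, pa, pb, ab, rfl⟩]
      decide
    refine ⟨g, g0, fun y hy z hz => ?_, fun y hy hn => ?_, fun u => ?_⟩
    · rcases hy with rfl | c | c
      · rcases (h z).1 hz with rfl | rfl | rfl
        · rw [e0]; exact k4_ne _ _ ne
        · rw [e1]; exact r1.tot_ne
        · rw [e2]; exact r2.tot_ne
      · rw [ga y c]; exact a2 y c z hz
      · rw [gb y c z hz]; exact b2 y c z hz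
    · rcases hy with rfl | c | c
      · rw [sum_Flow _ {p, a, b} _ (fun z => by rw [h]; simp), sum_insert (by simp [pa, pb]),
          sum_insert (by simp [ab]), sum_singleton, e0, e1, e2]
        exact k4_add_self _
      · rw [sA y c]; exact a3 y c hn
      · rw [sB y c]; exact b3 y c hn
    · rw [sum_Flow _ ((univ.filter fun y => y ∈ A ∧ Lf T y ∧ lab y = u) ∪
        univ.filter fun y => y ∈ B ∧ Lf T y ∧ lab y = u) _ (fun y => ?_), sum_union ?_,
        Pi.add_apply, a4, b4]
      · exact congrArg₂ _ (Finset.sum_congr rfl fun y hy => (sA y (mem_filter.1 hy).2.1).symm)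
          (Finset.sum_congr rfl fun y hy => (sB y (mem_filter.1 hy).2.1).symm)
      · exact disjoint_left.2 fun y c d =>
          Set.disjoint_left.1 dj (mem_filter.1 c).2.1 (mem_filter.1 d).2.1
      · simp only [mem_union, mem_filter, mem_univ, true_and]
        constructor
        · rintro ⟨rfl | c | c, d⟩
          exacts [absurd d.1 nL, Or.inl ⟨c, d⟩, Or.inr ⟨c, d⟩]
        · rintro (c | c)
          exacts [⟨Or.inr (Or.inl c.1), c.2⟩, ⟨Or.inr (Or.inr c.1), c.2⟩]

end

section

theorem glue_Cut {V : Type} {n : ℕ} {T : SimpleGraph V} {lab : V → Fin n} {p v a b : V}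
    {A B : Set V} {s t : Tr n} (h : ∀ w, T.Adj v w ↔ w = p ∨ w = a ∨ w = b) (pa : p ≠ a)
    (sa : Sub T lab v a A s) (sb : Sub T lab v b B t) (hd : Disjoint A B) (pA : p ∉ A)
    (pB : p ∉ B) (f : Bool → Bool) (Y cA cB : V → Bool) (D : Set (Sym2 V)) (a1 : cA v = true)
    (a2 : ∀ y ∈ A, Lf T y → f (cA y) = Y y)
    (a3 : ∀ y ∈ A, ∀ z, T.Adj y z → s(y, z) ∉ D → cA y = cA z) (b1 : cB v = true)
    (b2 : ∀ y ∈ B, Lf T y → f (cB y) = Y y)
    (b3 : ∀ y ∈ B, ∀ z, T.Adj y z → s(y, z) ∉ D → cB y = cB z)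
    (hf : s(v, p) ∉ D → f true = true) :
    ∃ col : V → Bool, col p = true ∧ (∀ y ∈ insert v (A ∪ B), Lf T y → col y = Y y) ∧
      ∀ y ∈ insert v (A ∪ B), ∀ z, T.Adj y z → s(y, z) ∉ D → col y = col z := by
  classical
  have vA := sa.closed.1
  have vB := sb.closed.1
  have vp : v ≠ p := ((h p).2 (Or.inl rfl)).ne
  obtain ⟨col, c1, c2, c3, c4⟩ : ∃ col : V → Bool, (∀ y ∈ A, col y = f (cA y)) ∧
      (∀ y ∈ B, col y = f (cB y)) ∧ col v = f true ∧ col p = true := by
    refine ⟨fun y => if y ∈ A then f (cA y) else if y ∈ B then f (cB y) else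
      if y = p then true else f true, fun y hy => if_pos hy, fun y hy => ?_, ?_, ?_⟩
    · simp only [if_neg (Set.disjoint_right.1 hd hy), if_pos hy]
    · simp only [if_neg vA, if_neg vB, if_neg vp]
    · simp only [if_neg pA, if_neg pB, if_true]
  refine ⟨col, c4, ?_, ?_⟩
  · rintro y (rfl | hy | hy) hl
    · obtain ⟨x, hx⟩ := Set.ncard_eq_one.1 hl
      have e1 : p ∈ T.neighborSet y := (h p).2 (Or.inl rfl)
      have e2 : a ∈ T.neighborSet y := (h a).2 (Or.inr (Or.inl rfl))
      rw [hx] at e1 e2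
      exact (pa (e1.trans e2.symm)).elim
    · rw [c1 y hy, a2 y hy hl]
    · rw [c2 y hy, b2 y hy hl]
  · rintro y (rfl | hy | hy) z hz hD
    · rcases (h z).1 hz with rfl | rfl | rfl
      · rw [c3, c4, hf hD]
      · rw [c3, c1 z sa.mem, a3 z sa.mem y hz.symm (by rwa [Sym2.eq_swap]), a1]
      · rw [c3, c2 z sb.mem, b3 z sb.mem y hz.symm (by rwa [Sym2.eq_swap]), b1]
    · rw [c1 y hy, a3 y hy z hz hD]
      rcases sa.closed.2 y hy z hz with d | ⟨-, rfl⟩
      · rw [c1 z d]
      · rw [c3, a1]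
    · rw [c2 y hy, b3 y hy z hz hD]
      rcases sb.closed.2 y hy z hz with d | ⟨-, rfl⟩
      · rw [c2 z d]
      · rw [c3, b1]

theorem sCut : SCut := by
  classical
  intro V _ n T lab p v B t h
  induction h with
  | leaf p v h =>
    intro X
    have hvp : T.Adj v p := (h p).2 rfl
    refine ⟨fun y => if y = p then true else X (lab v), if X (lab v) then ∅ else {s(v, p)},
      ?_, ?_, if_pos rfl, ?_, ?_⟩
    · unfold cost
      split_ifs <;> simp
    · split_ifs
      · exact Set.empty_subset _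
      · exact Set.singleton_subset_iff.2 hvp
    · rintro y rfl _
      exact if_neg hvp.ne
    · rintro y rfl z hz hD
      obtain rfl := (h z).1 hz
      simp only [if_neg hvp.ne, if_true]
      by_contra c
      rw [if_neg c] at hD
      exact hD rfl
  | node p v a b A B s t h pa _ _ sa sb hd _ _ pA pB iha ihb =>
    intro X
    rcases le_total (cost s X + cost t X)
      (1 + cost s (fun i => !X i) + cost t (fun i => !X i)) with e | e
    · obtain ⟨cA, DA, a1, a2, a3, a4, a5⟩ := iha X
      obtain ⟨cB, DB, b1, b2, b3, b4, b5⟩ := ihb X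
      obtain ⟨col, k⟩ := glue_Cut h pa sa sb hd pA pB id (fun y => X (lab y)) cA cB (DA ∪ DB) a3 a4
        (fun y hy z hz c => a5 y hy z hz fun d => c (Or.inl d)) b3 b4
        (fun y hy z hz c => b5 y hy z hz fun d => c (Or.inr d)) fun _ => rfl
      refine ⟨col, DA ∪ DB, ?_, Set.union_subset a2 b2, k⟩
      have := Set.ncard_union_le DA DB
      rw [cost, min_eq_left e]
      omega
    · obtain ⟨cA, DA, a1, a2, a3, a4, a5⟩ := iha fun i => !X i
      obtain ⟨cB, DB, b1, b2, b3, b4, b5⟩ := ihb fun i => !X i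
      obtain ⟨col, k⟩ := glue_Cut h pa sa sb hd pA pB (fun x => !x) (fun y => X (lab y)) cA cB
        (insert s(v, p) (DA ∪ DB)) a3 (fun y hy hl => by rw [a4 y hy hl, Bool.not_not])
        (fun y hy z hz c => a5 y hy z hz fun d => c (Or.inr (Or.inl d))) b3
        (fun y hy hl => by rw [b4 y hy hl, Bool.not_not])
        (fun y hy z hz c => b5 y hy z hz fun d => c (Or.inr (Or.inr d)))
        fun c => (c (Or.inl rfl)).elim
      refine ⟨col, insert s(v, p) (DA ∪ DB), ?_,
        Set.insert_subset ((h p).2 (Or.inl rfl)) (Set.union_subset a2 b2), k⟩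
      have := Set.ncard_union_le DA DB
      have := Set.ncard_insert_le s(v, p) (DA ∪ DB)
      rw [cost, min_eq_right e]
      omega

end

section

open Finset

theorem sTree (n : Nat) (hC : Core n) (hE : SEx) (hF : SFlow) (hD : SCut) : STree n := by
  classical
  intro V _ T lab hT hdeg hcut
  obtain ⟨⟨p, hp⟩, hsub⟩ := hE V n T lab hT hdeg
  obtain ⟨v, hv⟩ := Set.ncard_eq_one.1 hp
  have hv' : ∀ z, T.Adj p z ↔ z = v := fun z => by
    rw [← SimpleGraph.mem_neighborSet, hv, Set.mem_singleton_iff]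
  have hpv : T.Adj p v := (hv' v).2 rfl
  obtain ⟨t, ht⟩ := hsub p v hp hpv
  have hok : CutOK t (.leaf (lab p)) := by
    intro X hX
    obtain ⟨col, D, h1, h2, h3, h4, h5⟩ := hD V n T lab p v _ t ht X
    by_cases hx : X (lab p) = true
    · have := hcut X col D hX h2 (fun y hy => ?_) (fun y z hyz hn => ?_)
      · omega
      · by_cases e : y = p
        · rw [e, h3, hx]
        · exact h4 y e hy
      · by_cases e : y = p
        · have hz : z ≠ p := fun c => hyz.ne (e.trans c.symm)
          exact (h5 z hz y hyz.symm (by rwa [Sym2.eq_swap])).symm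
        · exact h5 y e z hyz hn
    · have hc : cost (Tr.leaf (lab p)) X = 1 := by simp [cost, hx]
      have hle := Set.ncard_insert_le s(p, v) D
      have := hcut X (Function.update col p false) (insert s(p, v) D) hX
        (Set.insert_subset hpv h2) (fun y hy => ?_) (fun y z hyz hn => ?_)
      · omega
      · by_cases e : y = p
        · rw [e, Function.update_self]
          simpa using hx
        · rw [Function.update_of_ne e]
          exact h4 y e hy
      · have hy : y ≠ p := by
          rintro rfl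
          exact hn (by rw [(hv' z).1 hyz]; exact Set.mem_insert _ _)
        have hz : z ≠ p := by
          rintro rfl
          exact hn (by rw [(hv' y).1 hyz.symm, Sym2.eq_swap]; exact Set.mem_insert _ _)
        rw [Function.update_of_ne hy, Function.update_of_ne hz]
        exact h5 y hy z hyz fun c => hn (Set.mem_insert_of_mem _ c)
  obtain ⟨x, hx, hx0, hx1⟩ := hC t _ hok
  obtain ⟨g, g1, g2, g3, g4⟩ := hF V n T lab p v _ t ht x hx
  refine ⟨g, fun y z hyz => ?_, fun y hy => g3 y (fun e => hy (by rw [e]; exact hp)) hy, fun u => ?_⟩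
  · by_cases e : y = p
    · have hz : z ≠ p := fun c => hyz.ne (e.trans c.symm)
      rw [Sym2.eq_swap]
      exact g2 z hz y hyz.symm
    · exact g2 y e z hyz
  · have hsum : ∑ i, x i = x (lab p) := sum_eq_single _ (fun w _ hw => hx1 w hw) (by simp)
    by_cases hu : u = lab p
    · have e : (univ.filter fun y => Lf T y ∧ lab y = u) = insert p
          (univ.filter fun y => y ∈ {y | y ≠ p} ∧ Lf T y ∧ lab y = u) := by
        ext y
        by_cases e : y = p
        · simp [e, hp, hu]
        · simp [e]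
      have e2 : (univ.filter fun z => T.Adj p z) = {v} := by
        ext z
        simp [hv']
      have h6 := g4 u
      have h7 : ∑ y ∈ univ.filter (fun y => Lf T y ∧ lab y = u), ∑ z with T.Adj y z, g s(y, z) =
          x u + x u := by
        rw [e, sum_insert (by simp), e2, sum_singleton, g1, hsum, ← hu]
        congr 1
        convert h6.symm
      convert h7.trans (k4_add_self _)
    · have e : (univ.filter fun y => Lf T y ∧ lab y = u) =
          (univ.filter fun y => y ∈ {y | y ≠ p} ∧ Lf T y ∧ lab y = u) := by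
        ext y
        by_cases e : y = p
        · simp [e, Ne.symm hu]
        · simp [e]
      have h6 := g4 u
      rw [hx1 u hu] at h6
      have h7 : ∑ y ∈ univ.filter (fun y => Lf T y ∧ lab y = u), ∑ z with T.Adj y z, g s(y, z) =
          0 := by
        rw [e]
        convert h6.symm
      convert h7

end

section

theorem uniq_Lab {V : Type} {T : SimpleGraph V} {y z w : V} (hy : Lf T y) (hz : T.Adj y z)
    (hw : T.Adj y w) : w = z := by
  obtain ⟨a, ha⟩ := Set.ncard_eq_one.mp hy
  have h1 : z ∈ T.neighborSet y := hz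
  have h2 : w ∈ T.neighborSet y := hw
  rw [ha] at h1 h2
  exact h2.trans h1.symm

theorem noadj_Lab {V : Type} [Fintype V] {G T : SimpleGraph V}
    (hG : ∀ v, (G.neighborSet v).ncard = 3) (hT : T.IsTree) (y z : V) (h : T.Adj y z)
    (hy : Lf T y) : ¬ Lf T z := by
  intro hz
  have hcl : ∀ u v, T.Reachable u v → (u = y ∨ u = z) → (v = y ∨ v = z) := by
    intro u v ⟨p⟩
    induction p with
    | nil => exact id
    | cons h' _ ih =>
      rintro (rfl | rfl)
      · exact ih (Or.inr (uniq_Lab hy h h'))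
      · exact ih (Or.inl (uniq_Lab hz h.symm h'))
  have hsub : G.neighborSet y ⊆ {z} := by
    intro w hw
    rcases hcl y w (hT.connected.preconnected y w) (Or.inl rfl) with rfl | rfl
    · exact absurd hw G.irrefl
    · rfl
  have h3 := Set.ncard_le_ncard hsub (Set.toFinite _)
  rw [hG y, Set.ncard_singleton] at h3
  omega

theorem deg_Lab {V : Type} [Fintype V] {G T : SimpleGraph V}
    (hG : ∀ v, (G.neighborSet v).ncard = 3) (hTG : T ≤ G) (u : V) :
    ((G \ T).neighborSet u).ncard = 3 - (T.neighborSet u).ncard := by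
  have h1 : (G \ T).neighborSet u = G.neighborSet u \ T.neighborSet u := by
    ext v
    simp
  have hsub : T.neighborSet u ⊆ G.neighborSet u := fun v hv => hTG hv
  rw [h1, Set.ncard_sdiff hsub (Set.toFinite _), hG u]

theorem lf_iff_Lab {V : Type} [Fintype V] {G T : SimpleGraph V}
    (hG : ∀ v, (G.neighborSet v).ncard = 3) (hTG : T ≤ G)
    (hT : ∀ v, (T.neighborSet v).ncard = 1 ∨ (T.neighborSet v).ncard = 3) (u : V) :
    Lf T u ↔ ∃ w, (G \ T).Adj u w := by
  have h1 := deg_Lab hG hTG u
  have h2 : ((G \ T).neighborSet u).Nonempty ↔ ∃ w, (G \ T).Adj u w := Iff.rfl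
  rw [← h2, ← Set.ncard_pos (Set.toFinite _), h1]
  unfold Lf
  rcases hT u with h | h <;> rw [h] <;> decide

theorem sLab : SLab := by
  intro V _ G T hG hTG hTree hT ⟨p, hp⟩
  classical
  have hna := noadj_Lab hG hTree
  refine ⟨hna, ?_⟩
  have hle : G \ T ≤ G := sdiff_le
  have hE : ∀ u, Deg02 (G \ T) u := fun u => deg02_of_even hle (hG u) (compl_even hG hTG hT u)
  have hmem : ∀ y, Lf T y → compSub hle ((G \ T).connectedComponentMk y) ∈
      {H : G.Subgraph | Cyc H ∧ ∀ v ∈ H.verts, Lf T v} := by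
    intro y hy
    obtain ⟨w, hw⟩ := (lf_iff_Lab hG hTG hT y).1 hy
    refine ⟨⟨compSub_connected hle _, compSub_deg hle hE _ ⟨y, w, rfl, hw⟩⟩, fun v hv => ?_⟩
    exact (lf_iff_Lab hG hTG hT v).2
      (exists_adj_of_reach hw (SimpleGraph.ConnectedComponent.eq.1 hv))
  let e : {H : G.Subgraph | Cyc H ∧ ∀ v ∈ H.verts, Lf T v} ≃
      Fin {H : G.Subgraph | Cyc H ∧ ∀ v ∈ H.verts, Lf T v}.ncard :=
    Finite.equivFinOfCardEq (Nat.card_coe_set_eq _)
  refine ⟨fun y => if h : Lf T y then e ⟨_, hmem y h⟩ else e ⟨_, hmem p hp⟩, ?_, ?_⟩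
  · intro y z hy hz
    simp only [dif_pos hy, dif_pos hz, EmbeddingLike.apply_eq_iff_eq, Subtype.mk.injEq]
    constructor
    · intro h
      have h1 : y ∈ (compSub hle ((G \ T).connectedComponentMk y)).verts := rfl
      rw [h] at h1
      exact SimpleGraph.ConnectedComponent.eq.1 h1
    · intro h
      rw [SimpleGraph.ConnectedComponent.eq.2 h]
  · intro u
    obtain ⟨⟨H, hc, hl⟩, rfl⟩ := e.surjective u
    have hno : ∀ y z, H.Adj y z → ¬ T.Adj y z := fun y z h ht =>
      hna y z ht (hl y (H.edge_vert h)) (hl z (H.edge_vert h.symm))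
    refine ⟨H, hc, hno, fun y hy => ⟨hl y hy, ?_⟩⟩
    obtain ⟨Q, -, rfl⟩ := eq_compSub hle hE H hc.1 hc.2 fun a b h => ⟨H.adj_sub h, hno a b h⟩
    have h1 : (G \ T).connectedComponentMk y = Q := hy
    subst h1
    simp only [dif_pos (hl y hy)]

end

section

open Finset

theorem nl_Main {V : Type} [Fintype V] {G T : SimpleGraph V}
    (hG : ∀ v, (G.neighborSet v).ncard = 3) (hTG : T ≤ G)
    (hd : ∀ v, (T.neighborSet v).ncard = 1 ∨ (T.neighborSet v).ncard = 3) {y z : V}
    (h : G.Adj y z) (hn : ¬ T.Adj y z) : Lf T y := by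
  refine (hd y).resolve_right fun h3 => hn ?_
  have e : T.neighborSet y = G.neighborSet y :=
    Set.eq_of_subset_of_ncard_le (fun v hv => hTG hv) (by rw [h3, hG])
  have h' : z ∈ G.neighborSet y := h
  rwa [← e] at h'

theorem walk_Main {V : Type} {G : SimpleGraph V} {P : V → Prop}
    (h : ∀ y z, G.Adj y z → P y → P z) {a b : V} (hr : G.Reachable a b) (ha : P a) : P b := by
  obtain ⟨w⟩ := hr
  induction w with
  | nil => exact ha
  | cons e _ ih => exact ih (h _ _ e ha)

open Classical in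
theorem sum_Main {V : Type} [Fintype V] (T : SimpleGraph V) (g : Sym2 V → K4) (A : V → Prop)
    (S : Set (V × V)) (h : ∀ p, p ∈ S ↔ A p.1 ∧ T.Adj p.1 p.2) :
    ∑ᶠ p ∈ S, g s(p.1, p.2) = ∑ y with A y, ∑ z with T.Adj y z, g s(y, z) := by
  have e : S = ↑((univ : Finset (V × V)).filter fun p => A p.1 ∧ T.Adj p.1 p.2) := by
    ext p
    simp [h]
  rw [e, finsum_mem_coe_finset, sum_filter, Fintype.sum_prod_type, sum_filter]
  refine sum_congr rfl fun y _ => ?_
  by_cases hy : A y
  · simp only [hy, true_and, if_true, sum_filter]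
  · simp only [hy, false_and, if_false, sum_const_zero]

open Classical in
theorem sMain (hT : ∀ n, n ≤ 4 → STree n) (hL : SLab) (hE : SEx) : SMain := by
  intro V _ G T hG hTG htree hd hcut hn
  obtain ⟨hp, -⟩ := hE V 1 T (fun _ => 0) htree hd
  obtain ⟨hl1, lab, hl2, hl3⟩ := hL V G T hG hTG htree hd hp
  have nl : ∀ y z, (G \ T).Adj y z → Lf T y ∧ Lf T z := fun y z h =>
    ⟨nl_Main hG hTG hd h.1 h.2, nl_Main hG hTG hd h.1.symm fun c => h.2 c.symm⟩
  obtain ⟨g, g1, g2, g3⟩ := hT _ hn V T lab htree hd fun X col D hX hD hc1 hc2 => by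
    by_contra hlt
    obtain ⟨⟨u, hu⟩, u', hu'⟩ := hX
    obtain ⟨H, hH, h1, h2⟩ := hl3 u
    obtain ⟨H', hH', h1', h2'⟩ := hl3 u'
    have dis : ∀ H : G.Subgraph, (∀ y z, H.Adj y z → ¬ T.Adj y z) → Disjoint H.edgeSet D :=
      fun H h => Set.disjoint_left.2 fun e he heD => by
        induction e using Sym2.ind with
        | _ y z => exact h y z he (hD heD)
    obtain ⟨a, ha⟩ := hH.1.nonempty
    obtain ⟨b, hb⟩ := hH'.1.nonempty
    have hr := hcut D (by omega) H H' hH hH' (dis H h1) (dis H' h1') a ha b hb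
    have step : ∀ y z, (G.deleteEdges D).Adj y z → col y = true → col z = true := by
      intro y z h hy
      rw [SimpleGraph.deleteEdges_adj] at h
      by_cases c : T.Adj y z
      · rwa [← hc2 y z c h.2]
      · have h3 : (G \ T).Adj y z := ⟨h.1, c⟩
        obtain ⟨l1, l2⟩ := nl y z h3
        rwa [hc1 z l2, ← (hl2 y z l1 l2).2 h3.reachable, ← hc1 y l1]
    have h4 := walk_Main step hr (by rw [hc1 a (h2 a ha).1, (h2 a ha).2, hu])
    rw [hc1 b (h2' b hb).1, (h2' b hb).2, hu'] at h4
    exact Bool.false_ne_true h4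
  obtain ⟨E, h1, h2, h3⟩ := frame_even hG hTG (I := Unit) (fun _ => G \ T) (fun _ => sdiff_le)
    (fun _ => compl_even hG hTG hd)
    (fun u v h c => by
      rw [Set.ncard_eq_one]
      exact ⟨(), Set.ext fun i => ⟨fun _ => rfl, fun _ => ⟨h, c⟩⟩⟩)
    (fun u v h => Or.inl (by
      rw [Set.ncard_eq_zero]
      exact Set.ext fun i => ⟨fun c => c.2 h, fun c => c.elim⟩))
    T (fun u v => ⟨fun h => ⟨h, fun _ c => c.2 h⟩, fun h => h.1⟩)
    (fun K => ⟨(), g, fun u v _ h => g1 u v h, fun Q => by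
      have hK : ∀ y, y ∈ K.supp := fun y => by
        obtain ⟨k, hk⟩ := K.nonempty_supp
        exact walk_Main (fun a b h ha => K.mem_supp_of_adj_mem_supp ha h)
          (htree.connected.preconnected k y) hk
      obtain ⟨y0, hy0⟩ := Q.nonempty_supp
      have hQ : ∀ y, y ∈ Q.supp ↔ (G \ T).Reachable y0 y := fun y =>
        ⟨fun h => Q.reachable_of_mem_supp hy0 h, fun h =>
          walk_Main (fun a b h ha => Q.mem_supp_of_adj_mem_supp ha h) h hy0⟩
      by_cases l0 : Lf T y0
      · have hQ' : ∀ y, y ∈ Q.supp ↔ Lf T y ∧ lab y = lab y0 := fun y => by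
          rw [hQ]
          constructor
          · intro h
            have l := walk_Main (P := Lf T) (fun a b h _ => (nl a b h).2) h l0
            exact ⟨l, ((hl2 y0 y l0 l).2 h).symm⟩
          · exact fun h => (hl2 y0 y l0 h.1).1 h.2.symm
        rw [sum_Main T g (fun y => Lf T y ∧ lab y = lab y0) _ fun p => ?_]
        · convert g3 (lab y0)
        · simp only [Set.mem_ofPred_eq, hQ']
          exact ⟨fun h => ⟨h.2.2.1, h.2.1⟩, fun h =>
            ⟨hK _, h.2, h.1, fun c => hl1 _ _ h.2 h.1.1 c.1⟩⟩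
      · have hQ' : ∀ y, y ∈ Q.supp ↔ y = y0 := fun y => by
          rw [hQ]
          exact ⟨fun h => walk_Main (P := fun y => y = y0)
            (fun a b h ha => (l0 (ha ▸ (nl a b h).1)).elim) h rfl, fun h => h ▸ .refl _⟩
        rw [sum_Main T g (fun y => y = y0) _ fun p => ?_]
        · rw [sum_eq_single y0 (fun b hb c => (c (mem_filter.1 hb).2).elim) (by simp)]
          exact g2 y0 l0
        · simp only [Set.mem_ofPred_eq, hQ']
          exact ⟨fun h => ⟨h.2.2.1, h.2.1⟩, fun h =>
            ⟨hK _, h.2, h.1, fun c => h.2.ne (h.1.trans c.symm)⟩⟩⟩)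
  obtain ⟨m, c, c1, c2, c3⟩ := cdc_of_cover hG hTG hd E h1 h2 h3
  exact ⟨m, c, c1, c2, fun H hH hv => c3 H hH.1 hH.2 fun u v h t =>
    hl1 u v t (hv u h.fst_mem) (hv v h.snd_mem)⟩

end

section

theorem flip_Down {n : ℕ} (t : Tr n) (X : Fin n → Bool) :
    cost t (fun i => !X i) ≤ 1 + cost t X := by
  cases t with
  | leaf u =>
    simp only [cost]
    split_ifs <;> omega
  | node a b =>
    simp only [cost, Bool.not_not, show (fun i => X i) = X from rfl]
    omega

theorem nt_Down {n : ℕ} {X : Fin n → Bool} (h : Nt X) : Nt fun i => !X i := by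
  obtain ⟨⟨u, hu⟩, w, hw⟩ := h
  exact ⟨⟨w, by simp [hw]⟩, u, by simp [hu]⟩

theorem node_Down {n : ℕ} (a b : Tr n) (h : ∀ c, CutOK a c → ∃ v, R a v ∧ R c v) (c : Tr n)
    (hc : CutOK (.node a b) c) : ∃ v, R (.node a b) v ∧ R c v := by
  obtain ⟨v, hv, y, z, hy, hz, -, e⟩ := h (.node b c) fun X hX => by
    have h1 := hc X hX
    have h2 := hc _ (nt_Down hX)
    have h3 := flip_Down a X
    simp only [cost, Bool.not_not] at h1 h2 ⊢
    omega
  refine ⟨z, ⟨v, y, hv, hy, fun h1 => R.tot_ne hz ?_, ?_⟩, hz⟩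
  · rw [e] at h1
    simp only [Pi.add_apply, Finset.sum_add_distrib] at h1
    exact add_eq_left.1 h1
  · funext i
    rw [e, Pi.add_apply, Pi.add_apply, add_right_comm, k4_add_self, zero_add]

/-- The same tree with one more, unused, label. -/
def mp_Down {n : ℕ} : Tr n → Tr (n + 1)
  | .leaf u => .leaf u.castSucc
  | .node a b => .node (mp_Down a) (mp_Down b)

theorem cost_Down {n : ℕ} : ∀ (c : Tr n) (X : Fin (n + 1) → Bool),
    cost (mp_Down c) X = cost c fun i => X i.castSucc
  | .leaf _, _ => rfl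
  | .node a b, X => by simp only [mp_Down, cost, cost_Down a, cost_Down b]

theorem rel_Down {n : ℕ} : ∀ (c : Tr n) (v : Fin (n + 1) → K4), R (mp_Down c) v →
    v (Fin.last n) = 0 ∧ R c fun i => v i.castSucc
  | .leaf u, _, h => ⟨h.2 _ (Fin.castSucc_lt_last u).ne', h.1,
      fun w hw => h.2 _ fun e => hw (Fin.castSucc_injective _ e)⟩
  | .node a b, _, ⟨x, y, hx, hy, h, e⟩ => by
    subst e
    obtain ⟨x0, x1⟩ := rel_Down a x hx
    obtain ⟨y0, y1⟩ := rel_Down b y hy
    refine ⟨by rw [Pi.add_apply, x0, y0, add_zero], _, _, x1, y1, ?_, rfl⟩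
    rwa [Fin.sum_univ_castSucc, Fin.sum_univ_castSucc, x0, y0, add_zero, add_zero] at h

theorem off_Down {n : ℕ} {a b : Tr n} {w : Fin n} (ha : ∀ v, R a v → v w = 0)
    (hb : ∀ v, R b v → v w = 0) (v : Fin n → K4) (h : R (.node a b) v) : v w = 0 := by
  obtain ⟨x, y, hx, hy, -, rfl⟩ := h
  rw [Pi.add_apply, ha x hx, hb y hy, add_zero]

theorem sDown (n : Nat) (h : Core (n + 1)) : Core n := by
  intro t
  induction t with
  | node a b iha _ => exact node_Down a b iha
  | leaf u =>
    intro c hc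
    obtain ⟨ch, hch⟩ : ∃ ch : Tr (n + 1), ch = .node (.leaf u.castSucc) (.leaf (Fin.last n)) :=
      ⟨_, rfl⟩
    obtain ⟨v, hv, hv'⟩ := h (.node (.node ch ch) (.node ch ch)) (mp_Down c) fun X hX => by
      rw [cost_Down, hch]
      by_cases e : X u.castSucc = X (Fin.last n)
      · have h1 : ∀ s, (∃ w, X w = s) → ∃ w : Fin n, X w.castSucc = s := by
          rintro s ⟨w, hw⟩
          induction w using Fin.lastCases with
          | last => exact ⟨u, e.trans hw⟩
          | cast w => exact ⟨w, hw⟩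
        have h2 := hc (fun i => X i.castSucc) ⟨h1 _ hX.1, h1 _ hX.2⟩
        refine h2.trans (Nat.add_le_add_right ?_ _)
        cases h3 : X u.castSucc <;> simp [cost, ← e, h3]
      · refine le_trans ?_ (Nat.le_add_right _ _)
        cases h3 : X u.castSucc <;> cases h4 : X (Fin.last n) <;> simp [cost, h3, h4] at e ⊢
    obtain ⟨-, h1⟩ := rel_Down c v hv'
    have h2 : ∀ w, w ≠ u → v w.castSucc = 0 := by
      intro w hw
      have h3 : ∀ x, R ch x → x w.castSucc = 0 := by
        rw [hch]
        exact off_Down (fun x hx => hx.2 _ fun e => hw (Fin.castSucc_injective _ e))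
          fun x hx => hx.2 _ (Fin.castSucc_lt_last w).ne
      exact off_Down (off_Down h3 h3) (off_Down h3 h3) v hv
    refine ⟨_, ⟨?_, h2⟩, h1⟩
    have h3 := R.tot_ne h1
    rwa [Finset.sum_eq_single u (fun w _ hw => h2 w hw) (by simp)] at h3

end

end Pool.Agent.MP_22fc46_co.Fo
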