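import Pool.Agent.Mg.F22fc46.Gee751e

/- Hists with at most four outer cycles: definitions and statements of the steps. -/

set_option autoImplicit false

namespace Pool.Agent.MP_22fc46_co.Fo

open Finset

abbrev K4 := ZMod 2 × ZMod 2

/-- Rooted binary trees with labelled leaves. -/
inductive Tr (n : ℕ) : Type
  | leaf : Fin n → Tr n
  | node : Tr n → Tr n → Tr n

/-- Vectors of class sums of the nowhere-zero flows on a tree. -/
def R {n : ℕ} : Tr n → (Fin n → K4) → Prop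
  | .leaf u, v => v u ≠ 0 ∧ ∀ w, w ≠ u → v w = 0
  | .node a b, v => ∃ x y, R a x ∧ R b y ∧ ∑ i, x i ≠ ∑ i, y i ∧ v = x + y

/-- The least number of edges that separate the root and the labels in `X` from the others. -/
def cost {n : ℕ} : Tr n → (Fin n → Bool) → ℕ
  | .leaf u, X => if X u then 0 else 1
  | .node a b, X =>
    min (cost a X + cost b X) (1 + cost a (fun i => !X i) + cost b (fun i => !X i))

def Nt {n : ℕ} (X : Fin n → Bool) : Prop := (∃ u, X u = true) ∧ ∃ u, X u = false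

def CutOK {n : ℕ} (t c : Tr n) : Prop := ∀ X, Nt X → 4 ≤ cost t X + cost c X

def Core (n : ℕ) : Prop := ∀ t c : Tr n, CutOK t c → ∃ v, R t v ∧ R c v

def Lf {V : Type} (T : SimpleGraph V) (y : V) : Prop := (T.neighborSet y).ncard = 1

/-- `B` is the branch of `T` behind the edge from `p` to `v`, of shape `t`. -/
inductive Sub {V : Type} {n : ℕ} (T : SimpleGraph V) (lab : V → Fin n) :
    V → V → Set V → Tr n → Prop
  | leaf (p v : V) : (∀ w, T.Adj v w ↔ w = p) → Sub T lab p v {v} (.leaf (lab v))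
  | node (p v a b : V) (A B : Set V) (s t : Tr n) : (∀ w, T.Adj v w ↔ w = p ∨ w = a ∨ w = b) →
      p ≠ a → p ≠ b → a ≠ b → Sub T lab v a A s → Sub T lab v b B t → Disjoint A B →
      v ∉ A → v ∉ B → p ∉ A → p ∉ B → Sub T lab p v (insert v (A ∪ B)) (.node s t)

def SEx : Prop := ∀ (V : Type) [Finite V] (n : ℕ) (T : SimpleGraph V) (lab : V → Fin n),
  T.IsTree → (∀ v, (T.neighborSet v).ncard = 1 ∨ (T.neighborSet v).ncard = 3) →
  (∃ p, Lf T p) ∧ ∀ p v, Lf T p → T.Adj p v → ∃ t, Sub T lab p v {y | y ≠ p} t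

open Classical in
def SFlow : Prop := ∀ (V : Type) [Fintype V] (n : ℕ) (T : SimpleGraph V) (lab : V → Fin n)
  (p v : V) (B : Set V) (t : Tr n), Sub T lab p v B t → ∀ x, R t x → ∃ g : Sym2 V → K4,
    g s(p, v) = ∑ i, x i ∧ (∀ y ∈ B, ∀ z, T.Adj y z → g s(y, z) ≠ 0) ∧
    (∀ y ∈ B, ¬ Lf T y → ∑ z with T.Adj y z, g s(y, z) = 0) ∧
    ∀ u, x u = ∑ y with y ∈ B ∧ Lf T y ∧ lab y = u, ∑ z with T.Adj y z, g s(y, z)

def SCut : Prop := ∀ (V : Type) [Finite V] (n : ℕ) (T : SimpleGraph V) (lab : V → Fin n)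
  (p v : V) (B : Set V) (t : Tr n), Sub T lab p v B t → ∀ X : Fin n → Bool,
    ∃ (col : V → Bool) (D : Set (Sym2 V)), D.ncard ≤ cost t X ∧ D ⊆ T.edgeSet ∧ col p = true ∧
      (∀ y ∈ B, Lf T y → col y = X (lab y)) ∧
      ∀ y ∈ B, ∀ z, T.Adj y z → s(y, z) ∉ D → col y = col z

open Classical in
/-- A labelled tree without small cuts between the labels has a flow. -/
def STree (n : ℕ) : Prop := ∀ (V : Type) [Fintype V] (T : SimpleGraph V) (lab : V → Fin n),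
  T.IsTree → (∀ v, (T.neighborSet v).ncard = 1 ∨ (T.neighborSet v).ncard = 3) →
  (∀ (X : Fin n → Bool) (col : V → Bool) (D : Set (Sym2 V)), Nt X → D ⊆ T.edgeSet →
    (∀ y, Lf T y → col y = X (lab y)) → (∀ y z, T.Adj y z → s(y, z) ∉ D → col y = col z) →
    4 ≤ D.ncard) →
  ∃ g : Sym2 V → K4, (∀ y z, T.Adj y z → g s(y, z) ≠ 0) ∧
    (∀ y, ¬ Lf T y → ∑ z with T.Adj y z, g s(y, z) = 0) ∧
    ∀ u, ∑ y with Lf T y ∧ lab y = u, ∑ z with T.Adj y z, g s(y, z) = 0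

def Cyc {V : Type} {G : SimpleGraph V} (H : G.Subgraph) : Prop :=
  H.Connected ∧ ∀ v ∈ H.verts, (H.neighborSet v).ncard = 2

/-- The outer cycles label the leaves. -/
def SLab : Prop := ∀ (V : Type) [Fintype V] (G T : SimpleGraph V),
  (∀ v, (G.neighborSet v).ncard = 3) → T ≤ G → T.IsTree →
  (∀ v, (T.neighborSet v).ncard = 1 ∨ (T.neighborSet v).ncard = 3) → (∃ p, Lf T p) →
  (∀ y z, T.Adj y z → Lf T y → ¬ Lf T z) ∧
  ∃ lab : V → Fin {H : G.Subgraph | Cyc H ∧ ∀ v ∈ H.verts, Lf T v}.ncard,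
    (∀ y z, Lf T y → Lf T z → (lab y = lab z ↔ (G \ T).Reachable y z)) ∧
    ∀ u, ∃ H : G.Subgraph, Cyc H ∧ (∀ y z, H.Adj y z → ¬ T.Adj y z) ∧
      ∀ y ∈ H.verts, Lf T y ∧ lab y = u

def SMain : Prop := ∀ (V : Type) [Fintype V] (G T : SimpleGraph V),
  (∀ v, (G.neighborSet v).ncard = 3) → T ≤ G → T.IsTree →
  (∀ v, (T.neighborSet v).ncard = 1 ∨ (T.neighborSet v).ncard = 3) →
  (∀ D : Set (Sym2 V), D.ncard ≤ 3 → ∀ H H' : G.Subgraph, Cyc H → Cyc H' →
    Disjoint H.edgeSet D → Disjoint H'.edgeSet D →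
    ∀ a ∈ H.verts, ∀ b ∈ H'.verts, (G.deleteEdges D).Reachable a b) →
  {H : G.Subgraph | Cyc H ∧ ∀ v ∈ H.verts, Lf T v}.ncard ≤ 4 →
  ∃ (m : ℕ) (c : Fin m → G.Subgraph), (∀ i, Cyc (c i)) ∧
    (∀ e ∈ G.edgeSet, {i | e ∈ (c i).edgeSet}.ncard = 2) ∧
    ∀ H : G.Subgraph, Cyc H → (∀ v ∈ H.verts, Lf T v) → ∃ i, c i = H

theorem k4_ne : ∀ a b : K4, a ≠ b → a + b ≠ 0 := by decide

theorem R.tot_ne {n : ℕ} : ∀ {t : Tr n} {v : Fin n → K4}, R t v → ∑ i, v i ≠ 0
  | .leaf u, v, h => by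
    rw [Finset.sum_eq_single u (fun w _ hw => h.2 w hw) (by simp)]
    exact h.1
  | .node _ _, _, ⟨x, y, _, _, h, e⟩ => by
    subst e
    simp only [Pi.add_apply, Finset.sum_add_distrib]
    exact k4_ne _ _ h

theorem Sub.adj {V : Type} {n : ℕ} {T : SimpleGraph V} {lab : V → Fin n} {p v : V} {B : Set V}
    {t : Tr n} (h : Sub T lab p v B t) : T.Adj v p := by
  cases h with
  | leaf _ _ h => exact (h p).2 rfl
  | node _ _ _ _ _ _ _ _ h => exact (h p).2 (Or.inl rfl)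

theorem Sub.mem {V : Type} {n : ℕ} {T : SimpleGraph V} {lab : V → Fin n} {p v : V} {B : Set V}
    {t : Tr n} (h : Sub T lab p v B t) : v ∈ B := by
  cases h <;> simp

/-- The only edge that leaves a branch is its stem. -/
theorem Sub.closed {V : Type} {n : ℕ} {T : SimpleGraph V} {lab : V → Fin n} {p v : V} {B : Set V}
    {t : Tr n} (h : Sub T lab p v B t) : p ∉ B ∧ ∀ y ∈ B, ∀ z, T.Adj y z → z ∈ B ∨ (y = v ∧ z = p) := by
  induction h with
  | leaf p v h =>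
    refine ⟨fun c => T.irrefl ((h v).2 (Eq.symm c)), fun y hy z hz => ?_⟩
    obtain rfl : y = v := hy
    exact Or.inr ⟨rfl, (h z).1 hz⟩
  | node p v a b A B s t h _ _ _ sa sb _ _ _ pa pb iha ihb =>
    refine ⟨?_, fun y hy z hz => ?_⟩
    · rintro (c | c | c)
      exacts [T.irrefl ((h v).2 (Or.inl c.symm)), pa c, pb c]
    · rcases hy with rfl | c | c
      · rcases (h z).1 hz with rfl | rfl | rfl
        exacts [Or.inr ⟨rfl, rfl⟩, Or.inl (Or.inr (Or.inl sa.mem)), Or.inl (Or.inr (Or.inr sb.mem))]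
      · rcases iha.2 y c z hz with d | d
        exacts [Or.inl (Or.inr (Or.inl d)), Or.inl (Or.inl d.2)]
      · rcases ihb.2 y c z hz with d | d
        exacts [Or.inl (Or.inr (Or.inr d)), Or.inl (Or.inl d.2)]

end Pool.Agent.MP_22fc46_co.Fo
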